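import Pool.Agent.Helper14.PI.Covers

/-!
# Almost all covers of products of elliptic curves with complex multiplication have no rational point

Let `A = E₁ × … × Eₙ`, where each `Eᵢ` is an elliptic curve `y² = x³ + aᵢ x + bᵢ` over `ℚ` of arbitrary
Mordell-Weil rank which has `r + 1` points modulo all large primes `r` congruent to `-1` modulo an
integer `M > 0` (by Deuring this holds for all elliptic curves over `ℚ` with complex multiplication, for a
suitable `M`; here it is proved if `bᵢ = 0` and `4 ∣ M`, and if `aᵢ = 0` and `3 ∣ M`).  Let `m ≥ 2` and `d₁, …, dₙ ≥ 1`, and let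
`L = O(∑ dᵢ Oᵢ)` on `A`, where `Oᵢ` is the divisor of points whose `i`-th component is the origin.
For sections `F_k` of `L^k`, `1 ≤ k ≤ m`, consider the cover
`V : z ^ m + F₁ z ^ (m - 1) + … + F_m = 0` of degree `m` of `A`.  We show that the
variety `V` has no rational point for almost all tuples `(F₁, …, F_m)` of rational linear combinations
of the monomials `∏ xᵢ ^ jᵢ yᵢ ^ eᵢ` (in a given set `S` of monomials): for `N ≥ N₀` and `1 ≤ e ≤ N` there are
at most `N ^ (|S| - 1/2000)` exceptions with coefficients `u s / e`, the vector of integers `u` in a given box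
of side `N`.  If the greatest common divisor of `m` and `M` is `1` or `2`, the monomials with `k = m` suffice:
this is the case of all cyclic covers `z ^ m = F`, where `F` is a section of `L ^ m`, for example for all
`m` prime to `3` if all `aᵢ = 0`, and for all `m` not divisible by `4` if all `bᵢ = 0`.
-/

open AlgebraicGeometry CategoryTheory

namespace Pool.Agent.Results.MP_2ae8fe_ag.CMCovers

/-- The curve `y² = x³ + a x + b` over `ℚ`. -/
abbrev E (a b : ℤ) : WeierstrassCurve.Affine ℚ := ⟨0, 0, 0, a, b⟩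

/-- The curve `y² = x³ + a x + b` has exactly `r` affine points (so `r + 1` points) modulo all large
primes `r` that are congruent to `-1` modulo `M`.  By Deuring this holds for all elliptic curves over `ℚ`
with complex multiplication and suitable `M`. -/
def Supersingular (M : ℕ) (a b : ℤ) : Prop :=
  ∃ B : ℕ, ∀ r : ℕ, r.Prime → B < r → M ∣ r + 1 →
    Nat.card {p : ZMod r × ZMod r //
      p.2 ^ 2 = p.1 ^ 3 + (a : ZMod r) * p.1 + (b : ZMod r)} = r

/-- The value at a rational point of `x ^ j * y ^ e`, considered as a section of the line bundle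
`O(w·O)` on `E`, where `2 j + 3 e ≤ w`.  At the origin `O` (point at infinity), where `x ^ j * y ^ e`
has a pole of order `2 j + 3 e`, this is the coefficient of the pole of order `w`. -/
def value {a b : ℤ} (w j e : ℕ) : (E a b).Point → ℚ
  | 0 => if 2 * j + 3 * e = w then 1 else 0
  | .some x y _ => x ^ j * y ^ e

/-- `(P, z)` is a rational point of the cover
`z ^ m + ∑ (k, μ) ∈ S, c (k, μ) * (∏ i, x_i ^ (μ i).1 * y_i ^ (μ i).2) * z ^ (m - k) = 0` of the
product of the curves `y² = x³ + a i x + b i`. The component `P i` of `P` may be the origin. -/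
def IsPoint {n : ℕ} (a b : Fin n → ℤ) (m : ℕ) (d : Fin n → ℕ) (S : Finset (ℕ × (Fin n → ℕ × ℕ)))
    (c : S → ℚ) (P : ∀ i, (E (a i) (b i)).Point) (z : ℚ) : Prop :=
  z ^ m + ∑ s : S, c s *
    (∏ i, value (s.1.1 * d i) (s.1.2 i).1 (s.1.2 i).2 (P i)) * z ^ (m - s.1.1) = 0

/-- The condition on the set `S` of monomials `(k, μ)`, standing for
`∏ i, x_i ^ (μ i).1 * y_i ^ (μ i).2 * z ^ (m - k)`: for `1 ≤ k ≤ m` they are sections of `L ^ k`, and
for `k = m` (and also for `k = m - 1`, if the greatest common divisor of `m` and `M` is not `1` or `2`) `S`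
contains for each set `A` of indices a monomial which is constant in the variables with index outside
`A`, and has the maximal possible pole order `k * d i` in the variables with index `i ∈ A`. -/
def Admissible {n : ℕ} (M m : ℕ) (d : Fin n → ℕ) (S : Finset (ℕ × (Fin n → ℕ × ℕ))) : Prop :=
  (∀ s ∈ S, 1 ≤ s.1 ∧ s.1 ≤ m ∧ ∀ i, 2 * (s.2 i).1 + 3 * (s.2 i).2 ≤ s.1 * d i) ∧
  ∀ k, (k = m ∨ k + 1 = m ∧ ¬ m.gcd M ∣ 2) → ∀ A : Finset (Fin n), ∃ s ∈ S, s.1 = k ∧
    ∀ i, if i ∈ A then 2 * (s.2 i).1 + 3 * (s.2 i).2 = k * d i else s.2 i = (0, 0)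

/-- The set `V(ℚ)` of rational points of a scheme `V` over `ℚ`, as a set of points of `V`: the
images of the sections of the structure morphism. -/
def rationalPoints {V : Scheme.{0}} (f : V ⟶ Spec (CommRingCat.of ℚ)) : Set V :=
  {P | ∃ s : Spec (CommRingCat.of ℚ) ⟶ V, s ≫ f = 𝟙 _ ∧ s (IsLocalRing.closedPoint ℚ) = P}

/-- **Main theorem.**  Let `M` be a positive integer, `Eᵢ` elliptic curves `y² = x³ + aᵢ x + bᵢ` over `ℚ` of
arbitrary rank, each with `aᵢ = 0` and `3 ∣ M`, or `bᵢ = 0` and `4 ∣ M`, or the property `Supersingular` for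
`M`.  For all `m ≥ 2`, all `d` and all admissible sets `S` of monomials there are a number
`N₀` and a set `B` of rational coefficient vectors, with at most `N ^ (|S| - 1/2000)` elements `u / e`, `u` in
a given box of side `N` in `ℤ ^ S`, if `N ≥ N₀` and `1 ≤ e ≤ N`, such that for all `c ∉ B` the cover `V_c` of degree `m` of `A = ∏ Eᵢ` has no
rational point; and an integral scheme `V` over `ℚ` whose function field contains elements
`xᵢ, yᵢ, z` satisfying the equations of `V_c` does not have a dense set of rational points. -/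
theorem result (n : ℕ) (a b : Fin n → ℤ) (hab : ∀ i, 4 * a i ^ 3 + 27 * b i ^ 2 ≠ 0)
    (M : ℕ) (hM : 0 < M)
    (hss : ∀ i, (a i = 0 ∧ 3 ∣ M) ∨ (b i = 0 ∧ 4 ∣ M) ∨ Supersingular M (a i) (b i))
    (m : ℕ) (hm : 2 ≤ m) (d : Fin n → ℕ)
    (S : Finset (ℕ × (Fin n → ℕ × ℕ))) (hS : Admissible M m d S) :
    ∃ N₀ : ℕ, ∃ B : Set (S → ℚ),
      (∀ N ≥ N₀, ∀ e : ℕ, 1 ≤ e → e ≤ N → ∀ v : S → ℤ,
        (Nat.card {u : S → ℤ // (fun s => (u s : ℚ) / e) ∈ B ∧
          ∀ s, v s ≤ u s ∧ u s < v s + N} : ℝ) ≤ (N : ℝ) ^ ((S.card : ℝ) - 1 / 2000)) ∧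
      ∀ c ∉ B,
        (∀ (P : ∀ i, (E (a i) (b i)).Point) (z : ℚ), ¬ IsPoint a b m d S c P z) ∧
        ∀ (V : Scheme.{0}) [IsIntegral V] (f : V ⟶ Spec (CommRingCat.of ℚ))
          (x y : Fin n → V.functionField) (z : V.functionField),
          (∀ i, y i ^ 2 = x i ^ 3 + (a i : V.functionField) * x i + (b i : V.functionField)) →
          z ^ m + ∑ s : S, (c s : V.functionField) *
            (∏ i, x i ^ (s.1.2 i).1 * y i ^ (s.1.2 i).2) * z ^ (m - s.1.1) = 0 →
          ¬ Dense (rationalPoints f) := by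
  have hS1 : Pool.Agent.Helper14.PH.Adm1 m d S := hS.1
  have hiff : ∀ c P z, IsPoint a b m d S c P z ↔
      Pool.Agent.Helper14.PH.OnCoverQ a b m d S c P z := by
    intro c P z
    unfold IsPoint Pool.Agent.Helper14.PH.OnCoverQ
    have : ∀ (a b : ℤ) (w j e : ℕ) (Q : (E a b).Point), value w j e Q =
        Pool.Agent.Helper11.Cov.sec w (j, e) Q := by
      intro a b w j e Q
      cases Q <;> rfl
    simp only [this]
  have hg : ∀ i, Pool.Agent.Helper11.Cov.Good (a i) (b i) := hab
  have hss' : ∀ i, Pool.Agent.Helper14.PG.SsMod M (a i) (b i) := fun i =>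
    Pool.Agent.Helper14.PI.ssMod_of8 (hab i) (hss i)
  have hN : ∃ N₀ : ℕ, ∀ N : ℕ, N₀ ≤ N → ∀ q : ℕ, 1 ≤ q → q ≤ N → ∀ v : S → ℤ,
      (Nat.card {u : S → ℤ //
        (∃ P z, Pool.Agent.Helper14.PH.OnCoverQ a b m d S (fun s => (u s : ℚ) / q) P z) ∧
        ∀ s, v s ≤ u s ∧ u s < v s + N} : ℝ) ≤ (N : ℝ) ^ ((S.card : ℝ) - 1 / 2000) := by
    by_cases hmM : m.gcd M ∣ 2
    · exact Pool.Agent.Helper14.PI.covers_power8
        (Pool.Agent.Helper14.PI.key8_ss a b hg hM (by omega) hmM hss') hm hS1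
        (hS.2 m (Or.inl rfl)) (Or.inr rfl)
    · exact Pool.Agent.Helper14.PI.covers_power8
        (Pool.Agent.Helper14.PI.key8_ss a b hg hM one_pos (by simp) hss') hm hS1
        (hS.2 m (Or.inl rfl)) (Or.inl fun h2 => hS.2 (m - 1) (Or.inr ⟨by omega, hmM⟩))
  obtain ⟨N₀, hN₀⟩ := hN
  refine ⟨N₀, {c | ∃ P z, Pool.Agent.Helper14.PH.OnCoverQ a b m d S c P z},
    fun N hN e he heN v => hN₀ N hN e he heN v,
    fun c hc => ⟨fun P z h => hc ⟨P, z, (hiff c P z).mp h⟩, ?_⟩⟩
  intro V _ f x y z hxy hz hdense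
  exact hc (Pool.Agent.Helper14.PH.exists_onCoverQ hg hS1 f x y z hxy hz hdense)

end Pool.Agent.Results.MP_2ae8fe_ag.CMCovers
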