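import Pool.Agent.Helper11.Cov.SS4
import Pool.Agent.Helper14.PG.FamQ

/-!
# Polynomial families of covers of products of elliptic curves with complex multiplication

Let `A = E₁ × … × Eₙ`, where each `Eᵢ` is an elliptic curve `y² = x³ + aᵢ x + bᵢ` over `ℚ` of arbitrary
Mordell-Weil rank which has `r + 1` points modulo all large primes `r` congruent to `-1` modulo an
integer `c`, `4 ∣ c` (by Deuring this holds for all elliptic curves over `ℚ` with complex multiplication, for
a suitable `c`; here it is proved if `bᵢ = 0`, and if `aᵢ = 0` and `3 ∣ c`).  Let `F(T) = (1 + g²) T ^ d + q_(d - 1) T ^ (d - 1) + … + q_0` be any polynomial of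
odd degree `d`, where `g` and the `q_l` are polynomials with integral coefficients in the functions
`1 / (1 + xᵢ²)`, `xᵢ / (1 + xᵢ²)` and `yᵢ / (1 + xᵢ²)` on `A`.  We show that for `N ≥ N₀` and `1 ≤ e ≤ N`,
for all but at most `N ^ (1 - 1/2000)` of the integers `u` in any interval of length `N`, the double
cover `z² + F(u/e) = 0` of `A` has no rational point, where `N₀` depends on `A` and `d` only.  So this
holds for almost all fibres over integral `t` (`e = 1`) and for almost all fibres over rational `t`,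
ordered by height, of every double cover of `A × 𝔸¹` which is given by such an equation.  For `d = 1`
these are pencils; they contain the family of the quadratic twists of `z² = 1 + g²`.  The same is true for
the pencils `z ^ m + h_(m - 1) z ^ (m - 1) + … + h_0 + t (1 + g²) = 0` of covers of every degree `m` for which
the greatest common divisor of `m` and `c` is `1` or `2`, and, for all `m ≥ 3`, for the two-parameter families
in which `h_0` and `h_1` are replaced by `h_0 + t_0 (1 + g_0²)` and `h_1 + t_1 (1 + g_1²)`.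

Proof.  The classes of the points of `A(ℚ)` modulo `M` are counted, where `M` is divisible by
`r + 1` for very many primes `r` at which the curves are supersingular (Bombieri-Vinogradov,
`Pool/Agent/Helper14/PS`, `Pool/Agent/Helper18/BV`); in each class the parameters are sieved modulo these
primes, with elementary symmetric functions (`PS/Es`).  The number of residue classes which are left
modulo `r` is bounded with Stepanov's method (`Pool/Agent/Helper14/PF`); for the pencils of degree `m`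
only primes `r` congruent to `1` modulo `m` are used, since for these a polynomial of degree `m` misses
at least `r / 4 m` values modulo `r` (`Pool/Agent/Helper14/PG`).  For rational parameters with
the denominator `e` only the primes `r` which do not divide `e` are used (`PS/Classes3`, `PF/FamQ`).
-/

open AlgebraicGeometry CategoryTheory

namespace Pool.Agent.Results.MP_2ae8fe_ag.CMPencils

/-- The curve `y² = x³ + a x + b` over `ℚ`. -/
abbrev E (a b : ℤ) : WeierstrassCurve.Affine ℚ := ⟨0, 0, 0, a, b⟩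

/-- The curve `y² = x³ + a x + b` has exactly `r` affine points (so `r + 1` points) modulo all large
primes `r` that are congruent to `-1` modulo `c`.  By Deuring this holds for all elliptic curves over `ℚ`
with complex multiplication and suitable `c`. -/
def Supersingular (c : ℕ) (a b : ℤ) : Prop :=
  ∃ B : ℕ, ∀ r : ℕ, r.Prime → B < r → c ∣ r + 1 →
    Nat.card {p : ZMod r × ZMod r //
      p.2 ^ 2 = p.1 ^ 3 + (a : ZMod r) * p.1 + (b : ZMod r)} = r

/-- The values at a rational point of the functions `1 / (1 + x²)`, `x / (1 + x²)`, `y / (1 + x²)`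
(for `j = 0, 1, 2`).  They are regular at the origin (point at infinity), with value `0`. -/
def coord {a b : ℤ} (j : Fin 3) : (E a b).Point → ℚ
  | 0 => 0
  | .some x y _ => ![1, x, y] j / (1 + x ^ 2)

/-- `(P, z)` is a rational point of the cover `z ^ m + ∑ j, h j * z ^ j + ∑ i, F i (t i) * z ^ i = 0`,
where `F i (T) = (1 + g i ^ 2) * T ^ d + ∑ l < d, q i l * T ^ l`, of the product of the curves
`y² = x³ + a i x + b i`; the `h j`, `q i l` and `g i` are polynomials in the `3 n` functions
`1 / (1 + xᵢ²)`, `xᵢ / (1 + xᵢ²)`, `yᵢ / (1 + xᵢ²)`.  The component `P i` of `P` may be the origin. -/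
def IsPoint {n m k d : ℕ} (a b : Fin n → ℤ) (h : Fin m → MvPolynomial (Fin n × Fin 3) ℤ)
    (q : Fin k → Fin d → MvPolynomial (Fin n × Fin 3) ℤ)
    (g : Fin k → MvPolynomial (Fin n × Fin 3) ℤ) (t : Fin k → ℚ)
    (P : ∀ i, (E (a i) (b i)).Point) (z : ℚ) : Prop :=
  z ^ m + ∑ j, MvPolynomial.aeval (fun p : Fin n × Fin 3 => coord p.2 (P p.1)) (h j) * z ^ (j : ℕ) +
    ∑ i, ((1 + (MvPolynomial.aeval (fun p : Fin n × Fin 3 => coord p.2 (P p.1)) (g i)) ^ 2) *
      t i ^ d + ∑ l, MvPolynomial.aeval (fun p : Fin n × Fin 3 => coord p.2 (P p.1)) (q i l) *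
        t i ^ (l : ℕ)) * z ^ (i : ℕ) = 0

/-- The set `V(ℚ)` of rational points of a scheme `V` over `ℚ`, as a set of points of `V`: the
images of the sections of the structure morphism. -/
def rationalPoints {V : Scheme.{0}} (f : V ⟶ Spec (CommRingCat.of ℚ)) : Set V :=
  {P | ∃ s : Spec (CommRingCat.of ℚ) ⟶ V, s ≫ f = 𝟙 _ ∧ s (IsLocalRing.closedPoint ℚ) = P}

/-- **Main theorem.**  Let `c` be a positive integer divisible by `4`, `Eᵢ` elliptic curves
`y² = x³ + aᵢ x + bᵢ` over `ℚ` of arbitrary rank, each with `bᵢ = 0`, or `aᵢ = 0` and `3 ∣ c`, or the property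
`Supersingular` for `c`.  Let `m ≥ 2`, and `k = 1` if `gcd (m, c)` divides `2` or `k = 2` if `m ≥ 3`, let `d` be
odd, and `d = 1` unless `m = 2`.  To all tuples `h`, `q` and `g` of integral polynomials in the functions
`1 / (1 + xᵢ²)`, `xᵢ / (1 + xᵢ²)`, `yᵢ / (1 + xᵢ²)` one can attach a set `B h q g` of exceptional
parameters in `ℚ ^ k` such that

* for `N ≥ N₀` and `1 ≤ e ≤ N` every box of side `N` in `ℤ ^ k` contains at most `N ^ (k - 1/2000)`
  points `u` with `u / e ∈ B h q g`, where `N₀` depends on the curves, `m`, `k` and `d` only;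
* for all `t ∉ B h q g` in `ℚ ^ k` the cover `z ^ m + ∑ j, h j * z ^ j + ∑ i < k, F i (t i) * z ^ i = 0` of
  `A = ∏ Eᵢ`, with `F i (T) = (1 + g i ^ 2) * T ^ d + ∑ l < d, q i l * T ^ l`, has no rational point, and an
  integral scheme `V` over `ℚ` whose function field contains elements `xᵢ, yᵢ, z` satisfying the
  equations of the cover does not have a dense set of rational points. -/
theorem result (n : ℕ) (a b : Fin n → ℤ) (hab : ∀ i, 4 * a i ^ 3 + 27 * b i ^ 2 ≠ 0)
    (c : ℕ) (hc : 0 < c) (h4 : 4 ∣ c)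
    (hss : ∀ i, (a i = 0 ∧ 3 ∣ c) ∨ b i = 0 ∨ Supersingular c (a i) (b i))
    (m k d : ℕ) (hm : 2 ≤ m) (hk : (k = 1 ∧ m.gcd c ∣ 2) ∨ (k = 2 ∧ 3 ≤ m)) (hd : Odd d)
    (hmd : m = 2 ∨ d = 1) :
    ∃ N₀ : ℕ, ∃ B : (Fin m → MvPolynomial (Fin n × Fin 3) ℤ) →
        (Fin k → Fin d → MvPolynomial (Fin n × Fin 3) ℤ) →
        (Fin k → MvPolynomial (Fin n × Fin 3) ℤ) → Set (Fin k → ℚ),
      (∀ N ≥ N₀, ∀ e : ℕ, 1 ≤ e → e ≤ N → ∀ h q g, ∀ v : Fin k → ℤ,
        (Nat.card {u : Fin k → ℤ // (fun i => (u i : ℚ) / e) ∈ B h q g ∧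
          ∀ i, v i ≤ u i ∧ u i < v i + N} : ℝ) ≤ (N : ℝ) ^ ((k : ℝ) - 1 / 2000)) ∧
      ∀ h q g, ∀ t ∉ B h q g,
        (∀ (P : ∀ i, (E (a i) (b i)).Point) (z : ℚ), ¬ IsPoint a b h q g t P z) ∧
        ∀ (V : Scheme.{0}) [IsIntegral V] (f : V ⟶ Spec (CommRingCat.of ℚ))
          (x y : Fin n → V.functionField) (z : V.functionField),
          (∀ i, y i ^ 2 = x i ^ 3 + (a i : V.functionField) * x i + (b i : V.functionField)) →
          z ^ m + ∑ j, MvPolynomial.aeval (fun p : Fin n × Fin 3 =>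
              ![1, x p.1, y p.1] p.2 / (1 + x p.1 ^ 2)) (h j) * z ^ (j : ℕ) +
            ∑ i, ((1 + (MvPolynomial.aeval (fun p : Fin n × Fin 3 =>
              ![1, x p.1, y p.1] p.2 / (1 + x p.1 ^ 2)) (g i)) ^ 2) * (t i : V.functionField) ^ d +
              ∑ l, MvPolynomial.aeval (fun p : Fin n × Fin 3 =>
                ![1, x p.1, y p.1] p.2 / (1 + x p.1 ^ 2)) (q i l) *
                (t i : V.functionField) ^ (l : ℕ)) * z ^ (i : ℕ) = 0 →
          ¬ Dense (rationalPoints f) := by
  have hiff : ∀ (h : Fin m → MvPolynomial (Fin n × Fin 3) ℤ)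
      (q : Fin k → Fin d → MvPolynomial (Fin n × Fin 3) ℤ)
      (g : Fin k → MvPolynomial (Fin n × Fin 3) ℤ) (t : Fin k → ℚ) P z,
      IsPoint a b h q g t P z ↔ Pool.Agent.Helper14.PF.OnFamQ a b h q g t P z := by
    intro h q g t P z
    unfold IsPoint Pool.Agent.Helper14.PF.OnFamQ
    have : ∀ (a b : ℤ) (j : Fin 3) (Q : (E a b).Point), coord j Q =
        Pool.Agent.Helper11.Cov.coo j Q := by
      intro a b j Q
      cases Q <;> rfl
    simp only [this]
  have hg : ∀ i, Pool.Agent.Helper11.Cov.Good (a i) (b i) := hab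
  have hss' : ∀ i, Pool.Agent.Helper14.PG.SsMod c (a i) (b i) := fun i =>
    Pool.Agent.Helper14.PG.ssMod_of h4 (hab i) (hss i)
  have hkm : k < m := by omega
  have hN : ∃ N₀ : ℕ, ∀ N : ℕ, N₀ ≤ N →
      ∀ e : ℕ, 1 ≤ e → e ≤ N → ∀ (h : Fin m → MvPolynomial (Fin n × Fin 3) ℤ)
        (q : Fin k → Fin d → MvPolynomial (Fin n × Fin 3) ℤ)
        (g : Fin k → MvPolynomial (Fin n × Fin 3) ℤ)
        (v : Fin k → ℤ), (Nat.card {A : Fin k → ℤ //
          (∃ P z, Pool.Agent.Helper14.PF.OnFamQ a b h q g (fun i => (A i : ℚ) / e) P z) ∧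
          ∀ i, v i ≤ A i ∧ A i < v i + N} : ℝ) ≤ (N : ℝ) ^ ((k : ℝ) - 1 / 2000) := by
    rcases hk with ⟨hk, hmc⟩ | ⟨hk, hm3⟩
    · exact Pool.Agent.Helper14.PG.famQ_power7
        (Pool.Agent.Helper14.PG.key7_ss a b hg hc h4 (by omega) hmc hss') hm
        (Or.inr ⟨hk, rfl⟩) hd hmd
    · exact Pool.Agent.Helper14.PG.famQ_power7
        (Pool.Agent.Helper14.PG.key7_ss a b hg hc h4 one_pos (by simp) hss') hm
        (Or.inl (by omega)) hd hmd
  obtain ⟨N₀, hN₀⟩ := hN
  refine ⟨N₀, fun h q g => {t | ∃ P z, Pool.Agent.Helper14.PF.OnFamQ a b h q g t P z},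
    fun N hN e he heN h q g v => hN₀ N hN e he heN h q g v,
    fun h q g t ht => ⟨fun P z hp => ht ⟨P, z, (hiff h q g t P z).mp hp⟩, ?_⟩⟩
  intro V _ f x y z hxy hz hdense
  exact ht (Pool.Agent.Helper14.PG.exists_onFamQ7 hg hkm hd hmd f x y z hxy hz hdense)

end Pool.Agent.Results.MP_2ae8fe_ag.CMPencils
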