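import Pool.Agent.Helper6.CI.Geo
import Pool.Agent.Helper6.CI.SS
import Pool.Agent.Helper11.CIP.Power
import Pool.Agent.Helper11.Cov.Rank1

/-!
MP_2ae8fe_ag: Lang's conjecture for almost all complete intersections of high degree in every
projective variety of relative dimension equal to their codimension over a product of elliptic curves
with complex multiplication (with a power saving) or over a power of an elliptic curve of rank at most
one.

Proof.  Let `W` be a closed subscheme of `P^N × A` whose fibres over `A` have dimension at most `e`.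
Let `r` be a prime such that `M A(ℚ)` reduces to zero modulo `r` (`Pool/Agent/Helper11/Cov`:
supersingular primes with `r + 1 ∣ M`, respectively prime divisors of the denominators of multiples of
a point).  Then the class modulo `M` of a point `P ∈ A(ℚ)` determines its reduction modulo `r`.  The
fibre of `W` over the reduction of `P` has at most `C r^e` points over `F_r`, with `C` depending only
on `W` (`Pool/Agent/Helper6/RD/Count.lean`, `Pool/Agent/Helper6/CI/Fibre.lean`: Noether normalisation
and Noetherian induction).  The values of random forms of degree at least `D₀` at any `D₀` points of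
projective space are independent, and a truncated inclusion-exclusion shows that for a positive
proportion of the tuples of forms modulo `r` none of these points is a common zero
(`Pool/Agent/Helper6/CI/Indep.lean`).  For a power of a curve of rank at most one there are for every
`C` an integer `M` and at least `C (1 + log M)` such primes, and the sieve over the `M^g` classes
concludes.  For complex multiplication there is an `M` such that `log M ≤ x^(1 - 1/82)` and such that
more than `x^(1 - τ)` primes `r ≤ x` have this property (primes `r` such that the large prime factors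
of `r + 1` are contained in a sparse set; the theorem of Bombieri and Vinogradov and a sieve), and a
high moment of the number of these `r` gives the power saving (`Pool/Agent/Helper14/PS`).
-/

open AlgebraicGeometry CategoryTheory Pool.Agent.Helper6.CI

namespace Pool.Agent.Results.MP_2ae8fe_ag.CompleteIntersections

/-- The curve `y² = x³ + a x + b` over `ℚ`. -/
abbrev E (a b : ℤ) : WeierstrassCurve.Affine ℚ := ⟨0, 0, 0, a, b⟩

/-- The set of the tuples `F` of forms in the box, such that the intersection of the scheme `I = 0`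
with the hypersurfaces `Φ i + F i = 0` has a rational point, or receives a rational map from an
integral scheme over `ℚ` with a dense set of rational points. -/
def Exceptional {n N e : ℕ} (a b : Fin n → ℤ) (I : Set (MvPolynomial (Vars N n) ℤ)) (d : Fin e → ℕ)
    (Φ : Fin e → MvPolynomial (Fin (N + 1)) ℤ) (H : ℕ) :
    Set (Fin e → MvPolynomial (Fin (N + 1)) ℤ) :=
  {F ∈ FormBox N d H |
    (∃ (x : Fin (N + 1) → ℚ) (c : Fin n → Fin 3 → ℚ),
      IsPoint a b I (fun i => Φ i + F i) x c) ∨
    ∃ (V : Scheme.{0}) (_ : IsIntegral V) (s : V ⟶ Spec (.of ℚ))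
      (x : Fin (N + 1) → V.functionField) (c : Fin n → Fin 3 → V.functionField),
      IsPoint a b I (fun i => Φ i + F i) x c ∧ Dense (rationalPoints s)}

/-- **Main theorem.**  Let `A` be a product of elliptic curves `Eᵢ: y² = x³ + aᵢ x + bᵢ` over `ℚ`, such
that for each `i` either `aᵢ = 0` or `bᵢ = 0` or the curve `Eᵢ` has `r` affine points modulo all large
primes `r` congruent to `-1` modulo some integer (this holds for all curves with complex
multiplication), or let `A` be a power of an elliptic curve over `ℚ` of rank at most one.  Let `W`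
be a closed subscheme of `P^N × A`, all of whose fibres over points of `A` with values in fields of
characteristic zero have dimension at most `e`.  There is `D₀` such that for all `dᵢ ≥ D₀`, for 100
percent of the forms `F₀, …, F_{e-1}` of degrees `dᵢ` with integer coefficients, uniformly in boxes
with arbitrary centre `Φ`, the intersection of `W` with the hypersurfaces `Φᵢ + Fᵢ = 0` has no
rational point, and no integral scheme over `ℚ` with a dense set of rational points has a rational
map to this intersection.  In the first case the proportion of the exceptions in a box of size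
`H ≥ H₀` is at most `H ^ (-1/2000)`. -/
theorem result (n N e : ℕ) (he : 1 ≤ e) (a b : Fin n → ℤ)
    (hab : ∀ i, 4 * a i ^ 3 + 27 * b i ^ 2 ≠ 0)
    (hA : (∀ i, a i = 0 ∨ b i = 0 ∨ Supersingular (a i) (b i)) ∨
      ∃ a₀ b₀ : ℤ, (∀ i, a i = a₀ ∧ b i = b₀) ∧ Module.finrank ℤ (E a₀ b₀).Point ≤ 1)
    (I : Set (MvPolynomial (Vars N n) ℤ)) (hI : ∀ f ∈ I, IsMultiHomogeneous f)
    (hdim : ∀ (Ω : Type) [Field Ω] [CharZero Ω] (c : Fin n → Fin 3 → Ω),
      (∀ i, OnCurve (a i) (b i) (c i)) →
        ringKrullDim (MvPolynomial (Fin (N + 1)) Ω ⧸ fibreIdeal I c) ≤ e + 1) :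
    ∃ D₀ : ℕ, ∀ d : Fin e → ℕ, (∀ i, D₀ ≤ d i) → ∀ ε : ℝ, 0 < ε →
      ∃ H₀ : ℕ, ∀ H : ℕ, H₀ ≤ H → ∀ Φ : Fin e → MvPolynomial (Fin (N + 1)) ℤ,
        (∀ i, (Φ i).IsHomogeneous (d i)) →
        ((Exceptional a b I d Φ H).ncard : ℝ) ≤ ε * (FormBox N d H).ncard ∧
        ((∀ i, a i = 0 ∨ b i = 0 ∨ Supersingular (a i) (b i)) →
          ((Exceptional a b I d Φ H).ncard : ℝ) ≤
            (H : ℝ) ^ (-(1 / 2000) : ℝ) * (FormBox N d H).ncard) := by
  classical
  have hset : ∀ (d : Fin e → ℕ) (Φ : Fin e → MvPolynomial (Fin (N + 1)) ℤ) (H : ℕ),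
      Exceptional a b I d Φ H =
      {F ∈ FormBox N d H | ∃ (x : Fin (N + 1) → ℚ) (c : Fin n → Fin 3 → ℚ),
          IsPoint a b I (fun i => Φ i + F i) x c} := by
    intro d Φ H
    ext F
    refine and_congr_right fun _ => ⟨?_, Or.inl⟩
    rintro (h2 | ⟨V, _, s, x, c, h2, h3⟩)
    · exact h2
    · exact exists_isPoint s h3 x c h2
  have hbox : ∀ (d : Fin e → ℕ) (H : ℕ), Pool.Agent.Helper6.RH.Box N d H = FormBox N d H :=
    fun _ _ => rfl
  by_cases hss : ∀ i, a i = 0 ∨ b i = 0 ∨ Supersingular (a i) (b i)
  · have hss' : ∀ i, Supersingular (a i) (b i) := fun i => by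
      have hi := hab i
      rcases hss i with h1 | h1 | h1
      · rw [h1] at hi ⊢
        exact supersingular_b _ (fun h2 => hi (by rw [h2]; norm_num))
      · rw [h1] at hi ⊢
        exact supersingular_a _ (fun h2 => hi (by rw [h2]; norm_num))
      · exact h1
    obtain ⟨D₀, h⟩ := Pool.Agent.Helper11.CIP.main_power he a b hab
      (Pool.Agent.Helper14.PS.key5_ss a b hab hss') I hI hdim
    refine ⟨D₀, fun d hd ε hε => ?_⟩
    obtain ⟨H₀, h⟩ := h d hd
    have ht : Filter.Tendsto (fun H : ℕ => (H : ℝ) ^ (-(1 / 2000) : ℝ)) Filter.atTop (nhds 0) :=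
      (tendsto_rpow_neg_atTop (by norm_num)).comp tendsto_natCast_atTop_atTop
    obtain ⟨H₁, hH₁⟩ := Filter.eventually_atTop.mp (ht.eventually_le_const hε)
    refine ⟨max (max H₀ H₁) 1, fun H hH Φ hΦ => ?_⟩
    have h1 := h H ((le_max_left _ _).trans ((le_max_left _ _).trans hH)) Φ hΦ
    have h4 := hH₁ H ((le_max_right _ _).trans ((le_max_left _ _).trans hH))
    rw [hbox, ← hset] at h1
    have h2 : 1 ≤ H := (le_max_right _ _).trans hH
    have h3 : (((2 * H + 1 : ℕ) : ℝ)) ^ (-(1 / 2000) : ℝ) ≤ (H : ℝ) ^ (-(1 / 2000) : ℝ) := by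
      refine Real.rpow_le_rpow_of_nonpos (by exact_mod_cast h2) ?_ (by norm_num)
      have h5 : H ≤ 2 * H + 1 := by omega
      exact_mod_cast h5
    have h6 := h1.trans (mul_le_mul_of_nonneg_right h3 (Nat.cast_nonneg _))
    exact ⟨h6.trans (mul_le_mul_of_nonneg_right h4 (Nat.cast_nonneg _)), fun _ => h6⟩
  · obtain ⟨a₀, b₀, hab₀, hr⟩ := hA.resolve_left hss
    have hkey : Pool.Agent.Helper11.Cov.Key a b := by
      have ha : a = fun _ => a₀ := funext fun i => (hab₀ i).1
      have hb : b = fun _ => b₀ := funext fun i => (hab₀ i).2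
      subst ha hb
      rcases Nat.eq_zero_or_pos n with rfl | hn
      · exact key_ss _ _ hab fun i => i.elim0
      · exact Pool.Agent.Helper11.Cov.key_rank_one (hab ⟨0, hn⟩) hr n
    obtain ⟨D₀, h⟩ := main_of he a b hab hkey I hI hdim
    refine ⟨D₀, fun d hd ε hε => ?_⟩
    obtain ⟨H₀, h⟩ := h d hd ε hε
    refine ⟨H₀, fun H hH Φ hΦ => ?_⟩
    have h1 := h H hH Φ hΦ
    rw [hbox, ← hset] at h1
    exact ⟨h1, fun h2 => absurd h2 hss⟩

end Pool.Agent.Results.MP_2ae8fe_ag.CompleteIntersections
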