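import Pool.Agent.Helper36.TW.Final
import Pool.Agent.Helper11.TW.Count2
import Pool.Agent.Helper11.TW.Reduce3
import Pool.Agent.Helper11.TW.Geo3

/-!
# Varieties over almost all quadratic twists of a product of elliptic curves have no rational point

Let `Eᵢ : y² = (x - a i 0) (x - a i 1) (x - a i 2)`, `1 ≤ i ≤ n`, be elliptic curves over `ℚ` with full
rational two-torsion (of arbitrary rank, with or without complex multiplication), and let
`A_d = ∏ Eᵢᵈ`, `Eᵢᵈ : d y² = (x - a i 0) (x - a i 1) (x - a i 2)`, be the quadratic twists of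
`A = ∏ Eᵢ`.  For each of the `4 ^ n` two-torsion points `e` let `R e` be a set of primes of lower
density at least `κ > 0`.  We show that for all squarefree `d`, `|d| ≤ N`, outside an exceptional set
of size `O(N (log N) ^ (-δ))`, for any `δ < κ`, *all* projective varieties `X` over `A_d` that have, for
the primes `r ∣ d` in `R e`, no point modulo `r` over `e`, have no rational point.  In particular let
`X → A` be a projective variety with an involution lying over `-1` (for example a double cover
`z² = F` with symmetric branch divisor) and `R e` the set of primes `r` such that the fibre over `e`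
of the quotient has no point modulo `r` (for `z² = F`: such that `F(e)` is not a square modulo `r`);
then 100 percent of the quadratic twists `X_d` have no rational point.
-/

open AlgebraicGeometry CategoryTheory

namespace Pool.Agent.Results.MP_2ae8fe_ag.QuadraticTwists

/-- `P` is a rational point of the elliptic curve `Eᵈ : d y² = (x - a 0) (x - a 1) (x - a 2)`: `none` is
the origin (the point at infinity), `some (x, y)` is an affine point. -/
def OnTwist (a : Fin 3 → ℤ) (d : ℤ) : Option (ℚ × ℚ) → Prop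
  | none => True
  | some (x, y) => (d : ℚ) * y ^ 2 = (x - a 0) * (x - a 1) * (x - a 2)

/-- Homogeneous coordinates `(p, q, w)`, of weights `1, 1, 2`, of a point of `Eᵈ`, which is the curve
`d w² = q (p - a 0 q) (p - a 1 q) (p - a 2 q)`. -/
def coord : Option (ℚ × ℚ) → Fin 3 → ℚ
  | none => ![1, 0, 0]
  | some (x, y) => ![x, 1, y]

/-- The point over `e`, with third coordinate `w`: here `e` is one of the four branch points `∞`
(`none`), `a 0`, `a 1`, `a 2` of the map `(p : q)` to the projective line. -/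
def branch {R : Type*} [CommRing R] (a : Fin 3 → ℤ) (e : Option (Fin 3)) (w : R) : Fin 3 → R :=
  match e with
  | none => ![1, 0, w]
  | some j => ![(a j : R), 1, w]

/-- `G` is a multihomogeneous polynomial in the variables `ζ s` (`s ∈ σ`) and
`(p i, q i, w i) = (X (i, 0), X (i, 1), X (i, 2))`, that is, an equation in the projective bundle
`ℙ(⨁ s, O(k s 1, …, k s n))` over a product of curves in `ℙ(1, 1, 2)`: homogeneous of some degree `D`
in `ζ`, and for each `i` homogeneous of some degree `δ i` if `ζ s` has degree `k s i`, and `p i`, `q i`,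
`w i` have degree `1, 1, 2`. -/
def IsMultihomogeneous {n : ℕ} {σ : Type} [Fintype σ] (k : σ → Fin n → ℕ)
    (G : MvPolynomial (σ ⊕ (Fin n × Fin 3)) ℤ) : Prop :=
  ∃ (D : ℕ) (δ : Fin n → ℕ), ∀ μ ∈ G.support, (∑ s, μ (Sum.inl s) = D) ∧
    ∀ i, (∑ s, μ (Sum.inl s) * k s i) + μ (Sum.inr (i, 0)) + μ (Sum.inr (i, 1)) +
      2 * μ (Sum.inr (i, 2)) = δ i

/-- The point with coordinates `ζ s` and `(p i, q i, w i) = (x (i, 0), x (i, 1), x (i, 2))` satisfies
all equations in `I`. -/
def Satisfies {n : ℕ} {σ : Type} {R : Type*} [CommRing R]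
    (I : Set (MvPolynomial (σ ⊕ (Fin n × Fin 3)) ℤ)) (ζ : σ → R) (x : Fin n × Fin 3 → R) : Prop :=
  ∀ G ∈ I, MvPolynomial.aeval (Sum.elim ζ x) G = 0

/-- The variety with equations `I` has no point over the field with `r` elements over the branch
point `e`. -/
def EmptyFibre {n : ℕ} {σ : Type} (a : Fin n → Fin 3 → ℤ)
    (I : Set (MvPolynomial (σ ⊕ (Fin n × Fin 3)) ℤ)) (e : Fin n → Option (Fin 3)) (r : ℕ) : Prop :=
  ¬ ∃ (ζ : σ → ZMod r) (w : Fin n → ZMod r), ζ ≠ 0 ∧
    Satisfies I ζ (fun j => branch (a j.1) (e j.1) (w j.1) j.2)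

/-- `(P, ζ)` is a rational point of the variety over `A_d = ∏ Eᵢᵈ` with equations `I`. -/
def IsPoint {n : ℕ} {σ : Type} (a : Fin n → Fin 3 → ℤ)
    (I : Set (MvPolynomial (σ ⊕ (Fin n × Fin 3)) ℤ)) (d : ℤ) (P : Fin n → Option (ℚ × ℚ))
    (ζ : σ → ℚ) : Prop :=
  (∀ i, OnTwist (a i) d (P i)) ∧ ζ ≠ 0 ∧ Satisfies I ζ (fun j => coord (P j.1) j.2)

open Classical in
/-- The set `R` of primes has lower density at least `κ` in the following sense: the sum of `1 / r`
over the primes `r ≤ x` in `R` is at least `κ log log x - K`, for some `K` and all `x ≥ 2`.  For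
example the primes in a coprime residue class modulo `M` have density `1 / φ(M)`, and the primes
modulo which an integer `c` is not a square have density `1 / 2` if `c` is not a square. -/
def LowerDensity (κ : ℝ) (R : Set ℕ) : Prop :=
  ∃ K : ℝ, ∀ x : ℕ, 2 ≤ x → κ * Real.log (Real.log x) - K ≤
    ∑ r ∈ (Finset.Icc 1 x).filter (fun r => r.Prime ∧ r ∈ R), (1 / r : ℝ)

/-- The set `V(ℚ)` of rational points of a scheme `V` over `ℚ`, as a set of points of `V`: the
images of the sections of the structure morphism. -/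
def rationalPoints {V : Scheme.{0}} (f : V ⟶ Spec (CommRingCat.of ℚ)) : Set V :=
  {P | ∃ s : Spec (CommRingCat.of ℚ) ⟶ V, s ≫ f = 𝟙 _ ∧ s (IsLocalRing.closedPoint ℚ) = P}

/-- **Main theorem.**  Let `Eᵢ : y² = (x - a i 0) (x - a i 1) (x - a i 2)` be elliptic curves, let `R e`
be sets of primes of lower density at least `κ`, where `e` runs through the `4 ^ n` two-torsion points
of `A = ∏ Eᵢ`, and let `0 < δ < κ`.  There is a set `S` of integers, with at most
`C N (log N) ^ (-δ)` elements in `[-N, N]`, such that for all squarefree `d ∉ S` and all projective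
varieties over `A_d = ∏ Eᵢᵈ`, given by any set `I` of equations, the following holds.  If the variety
has no point modulo `r` over `e` for all `e` and all primes `r ∣ d` in `R e`, then it has no rational
point, and no integral scheme over `ℚ` whose function field contains a solution of the equations has
a dense set of rational points. -/
theorem result (n : ℕ) (a : Fin n → Fin 3 → ℤ) (ha : ∀ i, Function.Injective (a i))
    (κ : ℝ) (R : (Fin n → Option (Fin 3)) → Set ℕ) (hR : ∀ e, LowerDensity κ (R e))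
    (δ : ℝ) (hδ : 0 < δ) (hδκ : δ < κ) :
    ∃ (S : Set ℤ) (C : ℝ),
      (∀ N : ℕ, 2 ≤ N → (Nat.card {d : ℤ // d ∈ S ∧ |d| ≤ N} : ℝ) ≤ C * N * (Real.log N) ^ (-δ)) ∧
      ∀ d : ℤ, Squarefree d → d ∉ S →
        ∀ (σ : Type) [Fintype σ] (k : σ → Fin n → ℕ)
          (I : Set (MvPolynomial (σ ⊕ (Fin n × Fin 3)) ℤ)),
          (∀ G ∈ I, IsMultihomogeneous k G) →
          (∀ e, ∀ r ∈ R e, r.Prime → (r : ℤ) ∣ d → EmptyFibre a I e r) →
          (∀ P ζ, ¬ IsPoint a I d P ζ) ∧
          ∀ (V : Scheme.{0}) [IsIntegral V] (f : V ⟶ Spec (CommRingCat.of ℚ))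
            (x y : Fin n → V.functionField) (ζ : σ → V.functionField),
            (∀ i, (d : V.functionField) * y i ^ 2 = (x i - (a i 0 : V.functionField)) *
              (x i - (a i 1 : V.functionField)) * (x i - (a i 2 : V.functionField))) →
            ζ ≠ 0 → Satisfies I ζ (fun j => ![x j.1, 1, y j.1] j.2) →
            ¬ Dense (rationalPoints f) := by
  classical
  obtain ⟨C, hC⟩ := Pool.Agent.Helper11.TW.count_bound2 Pool.Agent.Helper36.TW.HB_final n a ha
    (fun e r => r ∈ R e) κ (fun e => hR e) δ hδ hδκ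
  -- the exceptional set
  let Q : ℤ → Prop := fun d => ∃ p q w : Fin n → ℤ,
    (∀ i, IsCoprime (p i) (q i) ∧
      d * w i ^ 2 = Pool.Agent.Helper11.TW.quartic (a i) (p i) (q i)) ∧
    ∀ r : ℕ, r.Prime → (r : ℤ) ∣ d → ∀ ε : Fin n → Option (Fin 3),
      (∀ i, (r : ℤ) ∣ Pool.Agent.Helper11.TW.lin (a i) (ε i) (p i) (q i)) → ¬ (r ∈ R ε)
  have key : ∀ d : ℤ, Squarefree d → ∀ (σ : Type) [Fintype σ] (k : σ → Fin n → ℕ)
      (I : Set (MvPolynomial (σ ⊕ (Fin n × Fin 3)) ℤ)), (∀ G ∈ I, IsMultihomogeneous k G) →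
      (∀ e, ∀ r ∈ R e, r.Prime → (r : ℤ) ∣ d → EmptyFibre a I e r) →
      ∀ P ζ, IsPoint a I d P ζ → Q d := by
    intro d hd σ _ k I hI hfib P ζ hP
    obtain ⟨h1, h2, h3⟩ := hP
    obtain ⟨ζ', x', hs, hc, hr⟩ := Pool.Agent.Helper11.TW.exists_integral3 a k I hI d hd ζ h2
      (fun j => coord (P j.1) j.2)
      (by
        intro i
        show coord (P i) 0 ≠ 0 ∨ coord (P i) 1 ≠ 0
        rcases P i with _ | ⟨x, y⟩
        · left; simp [coord]
        · right; simp [coord])
      (by
        intro i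
        have := h1 i
        show (d : ℚ) * coord (P i) 2 ^ 2 = coord (P i) 1 * (coord (P i) 0 - a i 0 * coord (P i) 1) *
          (coord (P i) 0 - a i 1 * coord (P i) 1) * (coord (P i) 0 - a i 2 * coord (P i) 1)
        revert this
        rcases P i with _ | ⟨x, y⟩
        · intro _; simp [coord]
        · intro this
          simp only [OnTwist] at this
          simp only [coord, Matrix.cons_val_zero, Matrix.cons_val_one, Matrix.cons_val, mul_one,
            one_mul]
          exact this)
      h3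
    refine ⟨fun i => x' (i, 0), fun i => x' (i, 1), fun i => x' (i, 2), hc, ?_⟩
    intro r hrp hrd ε hε hrR
    refine Pool.Agent.Helper11.TW.not_noPoint3 a k I hI ζ' x' hs (fun i => (hc i).1) r hrp (hr r hrp)
      ε hε ?_
    intro ζ₀ w₀ hsol
    by_contra h0
    refine hfib ε r hrR hrp hrd ⟨ζ₀, w₀, h0, ?_⟩
    intro G hG
    have := hsol G hG
    rw [← this]
    congr 2
    funext s
    rcases s with s | ⟨i, j⟩
    · rfl
    · show branch (a i) (ε i) (w₀ i) j = (![((Pool.Agent.Helper11.TW.rep (a i) (ε i)).1 : ZMod r),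
        ((Pool.Agent.Helper11.TW.rep (a i) (ε i)).2 : ZMod r), w₀ i] : Fin 3 → ZMod r) j
      rcases ε i with _ | t <;> fin_cases j <;> simp [branch, Pool.Agent.Helper11.TW.rep]
  refine ⟨{d | Squarefree d ∧ Q d}, C, ?_, ?_⟩
  · intro N hN
    have hfin : {d : ℤ | (Squarefree d ∧ Q d) ∧ |d| ≤ (N : ℤ)}.Finite := by
      refine (Set.finite_Icc (-(N : ℤ)) (N : ℤ)).subset ?_
      intro d hd
      exact abs_le.mp hd.2
    have h1 := hC N hN hfin.toFinset (by
      intro d hd
      rw [Set.Finite.mem_toFinset] at hd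
      obtain ⟨⟨hsq, hQ⟩, hN'⟩ := hd
      exact ⟨hsq, hN', hQ⟩)
    refine le_trans (le_of_eq ?_) h1
    have : Nat.card {d : ℤ // d ∈ {d : ℤ | Squarefree d ∧ Q d} ∧ |d| ≤ (N : ℤ)} =
        hfin.toFinset.card := by
      rw [← Set.ncard_eq_toFinset_card _ hfin]
      rfl
    exact_mod_cast this
  · intro d hd hdS σ _ k I hI hfib
    refine ⟨fun P ζ hP => hdS ⟨hd, key d hd σ k I hI hfib P ζ hP⟩, ?_⟩
    intro V _ f x y ζ hxy hζ hz hdense
    obtain ⟨ζ', x', y', h0, h1, h2⟩ := Pool.Agent.Helper11.TW.exists_rational3 a I d f x y ζ hζ hxy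
      hz hdense
    refine hdS ⟨hd, key d hd σ k I hI hfib (fun i => some (x' i, y' i)) ζ' ⟨fun i => h1 i, h0, ?_⟩⟩
    exact h2

end Pool.Agent.Results.MP_2ae8fe_ag.QuadraticTwists
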